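import Pool.Agent.Helper91.SY.Goals

set_option autoImplicit false

open Set Filter Topology
open scoped ContDiff

namespace Pool.Agent.Helper83.SY

open Pool.Agent.Helper91.SY

theorem iv_ : Pool.Agent.Helper91.SY.StmtIV := by
  intro E _ _ _ φ hφ hinj hbij
  have hcomplete : CompleteSpace E := FiniteDimensional.complete ℝ E
  refine ⟨Equiv.ofBijective φ hbij, fun x => rfl, ?_, ?_⟩
  · exact hφ
  · rw [contDiff_iff_contDiffAt]
    intro y
    obtain ⟨x, rfl⟩ := hbij.2 y
    have hdiff : DifferentiableAt ℝ φ x := hφ.differentiable (by simp) x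
    have hf' : HasFDerivAt φ
        ((ContinuousLinearEquiv.ofBijective (fderiv ℝ φ x) (LinearMap.ker_eq_bot.2 (hinj x))
          (LinearMap.range_eq_top.2 (LinearMap.surjective_of_injective (hinj x))) : E ≃L[ℝ] E) :
          E →L[ℝ] E) x := by
      have h1 := hdiff.hasFDerivAt
      convert h1 using 1
      ext v
      rfl
    have hat : ContDiffAt ℝ ∞ φ x := hφ.contDiffAt
    have hn : (∞ : WithTop ℕ∞) ≠ 0 := by simp
    have h2 := hat.to_localInverse hf' hn
    refine h2.congr_of_eventuallyEq ?_
    have hst := hat.hasStrictFDerivAt' hf' hn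
    have h3 : ∀ᶠ z in 𝓝 (φ x), φ (hat.localInverse hf' hn z) = z :=
      hst.eventually_right_inverse
    filter_upwards [h3] with z hz
    apply (Equiv.ofBijective φ hbij).injective
    rw [Equiv.apply_symm_apply]
    exact hz.symm

end Pool.Agent.Helper83.SY
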